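import Pool.Agent.KS6_21.W.Endo

/-!
# MP_210c79_an : endotactic systems: permanence, periodic solutions, equilibria, global attractors

Variable-`k` endotactic systems (in particular weakly reversible systems with constant rates) are
permanent, uniformly; for periodic rates every compatibility class contains a periodic solution;
for constant rates it contains an equilibrium and a compact connected global attractor.
-/

set_option autoImplicit false

namespace Pool.Agent.Results.MP_210c79_an.EquilibriaAndAttractors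

/-- The right-hand side of the system generated by the edge set `E` (an edge is a pair
(source, target) of real vectors) with the rates `k`, at the point `x`. -/
noncomputable def field {n : ℕ} (E : Finset ((Fin n → ℝ) × (Fin n → ℝ)))
    (k : (Fin n → ℝ) × (Fin n → ℝ) → ℝ) (x : Fin n → ℝ) : Fin n → ℝ :=
  ∑ e ∈ E, (k e * ∏ i, x i ^ (e.1 i)) • (e.2 - e.1)

/-- Every edge of `E` lies on a directed cycle: its source can be reached from its target. -/
def WeaklyReversible {n : ℕ} (E : Finset ((Fin n → ℝ) × (Fin n → ℝ))) : Prop :=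
  ∀ e ∈ E, Relation.ReflTransGen (fun u v => (u, v) ∈ E) e.2 e.1

/-- For every `w` and every edge `s → s'` with `w ⬝ (s' - s) < 0` there is an edge `t → t'` with
`w ⬝ (t' - t) > 0` and `w ⬝ t < w ⬝ s`. -/
def Endotactic {n : ℕ} (E : Finset ((Fin n → ℝ) × (Fin n → ℝ))) : Prop :=
  ∀ w : Fin n → ℝ, ∀ e ∈ E, ∑ j, w j * (e.2 j - e.1 j) < 0 →
    ∃ e' ∈ E, 0 < ∑ j, w j * (e'.2 j - e'.1 j) ∧ ∑ j, w j * e'.1 j < ∑ j, w j * e.1 j

/-- The rates take values in `[ε, 1/ε]` on the edges. -/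
def Rates {n : ℕ} (E : Finset ((Fin n → ℝ) × (Fin n → ℝ))) (ε : ℝ)
    (k : (Fin n → ℝ) × (Fin n → ℝ) → ℝ → ℝ) : Prop :=
  ∀ e ∈ E, ∀ t : ℝ, ε ≤ k e t ∧ k e t ≤ 1 / ε

/-- `x` is a solution on `J` of the variable-`k` system: positive, absolutely continuous on the
compact subintervals, and satisfying the differential equation at almost every time of `J`. -/
structure IsSolution {n : ℕ} (E : Finset ((Fin n → ℝ) × (Fin n → ℝ)))
    (k : (Fin n → ℝ) × (Fin n → ℝ) → ℝ → ℝ) (x : ℝ → Fin n → ℝ) (J : Set ℝ) : Prop where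
  pos : ∀ t ∈ J, ∀ i, 0 < x t i
  ac : ∀ a ∈ J, ∀ b ∈ J, a ≤ b → AbsolutelyContinuousOnInterval x a b
  ode : ∀ᵐ t, t ∈ J → HasDerivAt x (field E (fun e => k e t) (x t)) t

/-- The class of `x₀`: the positive vectors `z` with `z - x₀` in the span of the edge vectors. -/
def compatClass {n : ℕ} (E : Finset ((Fin n → ℝ) × (Fin n → ℝ))) (x₀ : Fin n → ℝ) :
    Set (Fin n → ℝ) :=
  {z | (∀ i, 0 < z i) ∧ z - x₀ ∈ Submodule.span ℝ {v | ∃ e ∈ E, v = e.2 - e.1}}

/-- `Φ z` is, for every positive vector `z`, the solution on `[0, ∞)` that starts at `z`, and every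
solution on an interval `J ∋ 0` of nonnegative times that starts at `z` agrees with it on `J`. -/
structure IsFlow {n : ℕ} (E : Finset ((Fin n → ℝ) × (Fin n → ℝ)))
    (k : (Fin n → ℝ) × (Fin n → ℝ) → ℝ → ℝ) (Φ : (Fin n → ℝ) → ℝ → Fin n → ℝ) : Prop where
  start : ∀ z : Fin n → ℝ, (∀ i, 0 < z i) → Φ z 0 = z
  sol : ∀ z : Fin n → ℝ, (∀ i, 0 < z i) → IsSolution E k (Φ z) (Set.Ici 0)
  unique : ∀ z : Fin n → ℝ, (∀ i, 0 < z i) → ∀ (J : Set ℝ) (x : ℝ → Fin n → ℝ),
    J.OrdConnected → (0 : ℝ) ∈ J → J ⊆ Set.Ici 0 → IsSolution E k x J → x 0 = z →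
    ∀ t ∈ J, x t = Φ z t

/-- Let `E` be a finite set of edges in `ℝⁿ` which is weakly reversible or, more generally,
endotactic, let `ε > 0` and `x₀ > 0`. There is one compact convex subset `M` of the class of `x₀`,
containing `x₀`, such that:
(1) no solution, for any rates with values in `[ε, 1/ε]` and on any interval, leaves `M` in forward
time;
(2) for every compact subset `Q` of the class there is one time `τ` such that every solution, for
any such rates and on any interval, that is in `Q` at a time `s` is in `M` at all times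
`t ≥ s + τ`;
and for all measurable rates with values in `[ε, 1/ε]` there is a flow `Φ` such that:
(3) `Φ z t` is jointly continuous in `z > 0` and `t ≥ 0`, and the classes are invariant;
(4) if the rates are `T`-periodic, `T > 0`, there is a `T`-periodic solution in `M`;
(5) if the rates are constant, there is an equilibrium in `M`, and there is a compact connected
set `A ⊆ M` with `Φ_t (A) = A` for all `t ≥ 0` which attracts the compact subsets of the class
(for every neighbourhood `V` of `A` they are mapped into `V` by `Φ_t` for all large `t`) and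
contains every compact subset `B` of the class with `Φ_t (B) = B` for all `t ≥ 0`. -/
theorem result (n : ℕ) (E : Finset ((Fin n → ℝ) × (Fin n → ℝ)))
    (hE : WeaklyReversible E ∨ Endotactic E) (ε : ℝ) (hε : 0 < ε) (x₀ : Fin n → ℝ)
    (hx₀ : ∀ i, 0 < x₀ i) :
    ∃ M : Set (Fin n → ℝ), IsCompact M ∧ Convex ℝ M ∧ x₀ ∈ M ∧ M ⊆ compatClass E x₀ ∧
      (∀ k : (Fin n → ℝ) × (Fin n → ℝ) → ℝ → ℝ, Rates E ε k →
        ∀ (J : Set ℝ) (x : ℝ → Fin n → ℝ), J.OrdConnected → IsSolution E k x J →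
        ∀ s ∈ J, x s ∈ M → ∀ t ∈ J, s ≤ t → x t ∈ M) ∧
      (∀ Q : Set (Fin n → ℝ), IsCompact Q → Q ⊆ compatClass E x₀ →
        ∃ τ : ℝ, 0 < τ ∧ ∀ k : (Fin n → ℝ) × (Fin n → ℝ) → ℝ → ℝ, Rates E ε k →
          ∀ (J : Set ℝ) (x : ℝ → Fin n → ℝ), J.OrdConnected → IsSolution E k x J →
          ∀ s ∈ J, x s ∈ Q → ∀ t ∈ J, s + τ ≤ t → x t ∈ M) ∧
      ∀ k : (Fin n → ℝ) × (Fin n → ℝ) → ℝ → ℝ, (∀ e ∈ E, Measurable (k e)) → Rates E ε k →
        ∃ Φ : (Fin n → ℝ) → ℝ → Fin n → ℝ, IsFlow E k Φ ∧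
          ContinuousOn (fun p : (Fin n → ℝ) × ℝ => Φ p.1 p.2)
            ({z | ∀ i, 0 < z i} ×ˢ Set.Ici 0) ∧
          (∀ z ∈ compatClass E x₀, ∀ t, 0 ≤ t → Φ z t ∈ compatClass E x₀) ∧
          (∀ T : ℝ, 0 < T → (∀ e ∈ E, ∀ t, k e (t + T) = k e t) →
            ∃ z ∈ M, ∀ t, 0 ≤ t → Φ z (t + T) = Φ z t) ∧
          ((∀ e ∈ E, ∀ t, k e t = k e 0) →
            (∃ z ∈ M, field E (fun e => k e 0) z = 0) ∧
            ∃ A : Set (Fin n → ℝ), A ⊆ M ∧ IsCompact A ∧ IsConnected A ∧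
              (∀ t, 0 ≤ t → (fun z => Φ z t) '' A = A) ∧
              (∀ Q : Set (Fin n → ℝ), IsCompact Q → Q ⊆ compatClass E x₀ →
                ∀ V : Set (Fin n → ℝ), IsOpen V → A ⊆ V →
                ∃ τ : ℝ, 0 < τ ∧ ∀ t, τ ≤ t → ∀ z ∈ Q, Φ z t ∈ V) ∧
              ∀ B : Set (Fin n → ℝ), IsCompact B → B ⊆ compatClass E x₀ →
                (∀ t, 0 ≤ t → (fun z => Φ z t) '' B = B) → B ⊆ A) := by
  have hP : TH310.Endo.EndoP E := by
    rcases hE with h | h
    · exact TH310.Endo.EndoP_of_wr E h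
    · exact TH310.Endo.EndoP_of E h
  obtain ⟨T, c, M, R0, D⟩ := TH310.Endo.field_endo W712.WR.main' E hP ε hε
  have fwd : ∀ (k : (Fin n → ℝ) × (Fin n → ℝ) → ℝ → ℝ) (x : ℝ → Fin n → ℝ) (J : Set ℝ),
      IsSolution E k x J → W712.WR.IsSol E k x J := fun k x J h => ⟨h.pos, h.ac, h.ode⟩
  obtain ⟨K, h1, h2, h3, h4, h5, h6, h7⟩ := KS6_21.W.main hε D x₀ hx₀
  refine ⟨K, h1, h2, h3, h4, fun k hk J x hJ hx => h5 k hk J x hJ (fwd _ _ _ hx), ?_, ?_⟩
  · intro Q hQ hQc
    obtain ⟨τ, hτ, H⟩ := h6 Q hQ hQc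
    exact ⟨τ, hτ, fun k hk J x hJ hx => H k hk J x hJ (fwd _ _ _ hx)⟩
  · intro k hm hk
    obtain ⟨Φ, hΦ⟩ := KS6_21.W.exists_flow hε D k hm hk
    obtain ⟨h8, h9⟩ := h7 k hm hk Φ hΦ
    refine ⟨Φ, ⟨hΦ.zero, fun z hz => ⟨(hΦ.sol z hz).pos, (hΦ.sol z hz).ac, (hΦ.sol z hz).ode⟩,
      fun z hz J x hJ h0 hJ0 hx hx0 t ht =>
        (hΦ.uniq z hz J x hJ h0 hJ0 (fwd _ _ _ hx) hx0 t ht).symm⟩,
      KS6_21.W.flow_cont hε D k hm hk hΦ, ?_, h8, h9⟩
    intro z hz t ht
    exact Y614.WR.Unif.in_cls' x₀ k (Set.Ici 0) Set.ordConnected_Ici (Φ z) (hΦ.sol z hz.1)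
      (Set.mem_Ici.2 le_rfl) ht ht (by rw [hΦ.zero z hz.1]; exact hz)

end Pool.Agent.Results.MP_210c79_an.EquilibriaAndAttractors
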